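import Pool.Agent.Lib.MP_9b2b7a_co.SW.Pairs

set_option autoImplicit false
open scoped Classical

namespace Pool.Agent.Results.MP_9b2b7a_co.FewSwitches

/-- twice the signed area of the triangle `x y p`; it is `0` iff `p` is on the line `x y` -/
def orient (x y p : ℝ × ℝ) : ℝ := (y.1 - x.1) * (p.2 - x.2) - (y.2 - x.2) * (p.1 - x.1)

/-- the points of `A` on the line through `x` and `y` -/
noncomputable def line (A : Finset (ℝ × ℝ)) (x y : ℝ × ℝ) : Finset (ℝ × ℝ) :=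
  A.filter (fun p => orient x y p = 0)

/-- the lines through two points of `A`, each given by its set of points of `A` -/
noncomputable def lines (A : Finset (ℝ × ℝ)) : Finset (Finset (ℝ × ℝ)) :=
  ((A ×ˢ A).filter (fun t => t.1 ≠ t.2)).image (fun t => line A t.1 t.2)

/-- the lines `u` and `w` through `x` are neighbours at `x`: one of the two double wedges between
them has no point of `A` in its interior -/
def Neighbours (A : Finset (ℝ × ℝ)) (x : ℝ × ℝ) (u w : Finset (ℝ × ℝ)) : Prop :=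
  ∀ y ∈ u, ∀ z ∈ w, y ≠ x → z ≠ x → ((∀ p ∈ A, 0 ≤ orient x y p * orient x z p) ∨
    (∀ p ∈ A, orient x y p * orient x z p ≤ 0))

/-- the number of triples `(x, u, w)`: `x` a point of `A`, `u` and `w` lines through `x` and another
point of `A`, `u` has the property `P`, `w` does not, and they are neighbours at `x` -/
noncomputable def switches (A : Finset (ℝ × ℝ)) (P : Finset (ℝ × ℝ) → Prop) : ℕ :=
  ((A ×ˢ lines A ×ˢ lines A).filter (fun t => t.1 ∈ t.2.1 ∧ t.1 ∈ t.2.2 ∧ P t.2.1 ∧ ¬ P t.2.2 ∧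
    Neighbours A t.1 t.2.1 t.2.2)).card

/-- the points of `B` lie on a cubic curve -/
def OnCubic (B : Finset (ℝ × ℝ)) : Prop :=
  ∃ p : MvPolynomial (Fin 2) ℝ, p ≠ 0 ∧ p.totalDegree ≤ 3 ∧
    ∀ x ∈ B, MvPolynomial.eval ![x.1, x.2] p = 0

/-- ten points of `A` lie on a cubic curve -/
def TenOnCubic (A : Finset (ℝ × ℝ)) : Prop :=
  ∃ B : Finset (ℝ × ℝ), B ⊆ A ∧ B.card = 10 ∧ OnCubic B

/-- the number of collinear triples of `A` -/
noncomputable def triples (A : Finset (ℝ × ℝ)) : ℕ :=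
  ((A.powersetCard 3).filter (fun s : Finset (ℝ × ℝ) => Collinear ℝ (s : Set (ℝ × ℝ)))).card

/-- (1) for every set `U` of lines with at least three points: an isoperimetric inequality unless ten
points are on a cubic, and the structure theorem: few cubics contain almost all lines of `U`;
(2) the form of the problem, every `c > 0`; (3) at most `K n` switches: boundedly many cubics contain
all but `ε n ^ 2` of the ordered pairs of points on lines with at least three points, and if there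
are at least `δ n ^ 2` such pairs, then one cubic contains `c n` points. -/
theorem result :
    (∀ (A : Finset (ℝ × ℝ)) (U : Finset (Finset (ℝ × ℝ))), U ⊆ lines A → (∀ u ∈ U, 3 ≤ u.card) →
      (TenOnCubic A ∨ U.card ≤ 12 * (U.biUnion id).card + 3 * switches A (fun u => u ∈ U)) ∧
      ∀ t : ℝ, 0 < t → ∃ D : Finset (Finset (ℝ × ℝ)), (∀ B ∈ D, B ⊆ A ∧ OnCubic B) ∧
        (D.card : ℝ) * t ≤
          3 * (154 * ((U.biUnion id).card : ℝ) + 46 * (switches A (fun u => u ∈ U) : ℝ)) ∧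
        ((U.filter (fun u => ∀ B ∈ D, ¬ u ⊆ B)).card : ℝ) ≤ (1 + t / 2) *
          (154 * ((U.biUnion id).card : ℝ) + 46 * (switches A (fun u => u ∈ U) : ℝ))) ∧
    (∀ c : ℝ, 0 < c → ∃ N : ℕ, ∀ A : Finset (ℝ × ℝ), N ≤ A.card →
      c * (A.card : ℝ) ^ 2 ≤ (triples A : ℝ) →
      4 * (switches A (fun u => 3 ≤ u.card) : ℝ) ≤ c * (A.card : ℝ) ^ 2 → TenOnCubic A) ∧
    (∀ K : ℝ, 0 ≤ K →
      (∀ ε : ℝ, 0 < ε → ∃ C : ℕ, ∀ A : Finset (ℝ × ℝ),
        (switches A (fun u => 3 ≤ u.card) : ℝ) ≤ K * (A.card : ℝ) →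
        ∃ D : Finset (Finset (ℝ × ℝ)), D.card ≤ C ∧ (∀ B ∈ D, B ⊆ A ∧ OnCubic B) ∧
          (((A ×ˢ A).filter (fun t => t.1 ≠ t.2 ∧ 3 ≤ (line A t.1 t.2).card ∧
            ∀ B ∈ D, ¬ line A t.1 t.2 ⊆ B)).card : ℝ) ≤ ε * (A.card : ℝ) ^ 2) ∧
      (∀ δ : ℝ, 0 < δ → ∃ c : ℝ, 0 < c ∧ ∀ A : Finset (ℝ × ℝ),
        δ * (A.card : ℝ) ^ 2 ≤
          (((A ×ˢ A).filter (fun t => t.1 ≠ t.2 ∧ 3 ≤ (line A t.1 t.2).card)).card : ℝ) →
        (switches A (fun u => 3 ≤ u.card) : ℝ) ≤ K * (A.card : ℝ) →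
        ∃ B : Finset (ℝ × ℝ), B ⊆ A ∧ OnCubic B ∧ c * (A.card : ℝ) ≤ (B.card : ℝ))) := by
  refine ⟨fun A U hU hU3 => ⟨?_, fun t ht => ?_⟩, fun c hc => ?_, fun K hK => ⟨fun ε hε => ?_,
    fun δ hδ => ?_⟩⟩
  · by_cases hno : TenOnCubic A
    · exact Or.inl hno
    · exact Or.inr (MP9b2b.iso10 A hno U hU hU3)
  · exact MP9b2b.struct A U hU hU3 t ht
  · exact MP9b2b.all_c c hc
  · exact MP9b2b.pairs K ε hK hε
  · exact MP9b2b.strong2 K δ hK hδ

end Pool.Agent.Results.MP_9b2b7a_co.FewSwitches
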