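import Pool.Agent.Lib.MP_9b2b7a_co.Final2

set_option autoImplicit false
open scoped Classical

namespace Pool.Agent.Results.MP_9b2b7a_co.NearMaximal

/-- Q1 for every constant c above 5/32 (the largest possible number of collinear triples of a set
without 10 points on a cubic is about n^2/6): a large plane set with at least c n^2 collinear triples
contains 10 points on a cubic curve. -/
theorem result :
    ∀ c : ℝ, 5 / 32 < c → ∃ N : ℕ, ∀ A : Finset (ℝ × ℝ), N ≤ A.card →
      c * ((A.card : ℝ) ^ 2) ≤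
        (((A.powersetCard 3).filter
          (fun s : Finset (ℝ × ℝ) => Collinear ℝ (s : Set (ℝ × ℝ)))).card : ℝ) →
      ∃ B : Finset (ℝ × ℝ), B ⊆ A ∧ B.card = 10 ∧
        ∃ p : MvPolynomial (Fin 2) ℝ, p ≠ 0 ∧ p.totalDegree ≤ 3 ∧
          ∀ x ∈ B, MvPolynomial.eval ![x.1, x.2] p = 0 :=
  fun c hc => MP9b2b.near_maximal' c hc

end Pool.Agent.Results.MP_9b2b7a_co.NearMaximal
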