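import Pool.Agent.Lib.MP_9b2b7a_co.PG.OutMain

set_option autoImplicit false
open scoped Classical

namespace Pool.Agent.Results.MP_9b2b7a_co.OutsidePiercing

/-- Let `P = {p 0, ..., p (n - 1)}` be the vertex set of a convex `n`-gon and `R` a finite set of
other points. If `4 n |R| + 16 U + 13 n ≤ 5 n² + 19`, where `U` is the number of pairs of vertices
`p i`, `p j` such that no point of `R` lies on the line `p i p j` outside the segment, then ten
points of `P ∪ R` lie on a cubic curve. In particular (`U = 0`) this holds if every line through two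
vertices contains a point of `R` outside the polygon and `4 |R| + 13 ≤ 5 n`. -/
theorem result (n : ℕ) (p : ℕ → ℝ × ℝ) (hn : 10 ≤ n)
    (hp : ∀ i j k : ℕ, i < j → j < k → k < n →
      0 < ((p j).1 - (p i).1) * ((p k).2 - (p i).2) - ((p j).2 - (p i).2) * ((p k).1 - (p i).1))
    (R : Finset (ℝ × ℝ)) (hR : ∀ r ∈ R, ∀ i < n, r ≠ p i)
    (hU : 4 * n * R.card + 16 * ((Finset.range n ×ˢ Finset.range n).filter (fun e => e.1 < e.2 ∧
      ∀ r ∈ R, ¬ (Collinear ℝ ({p e.1, p e.2, r} : Set (ℝ × ℝ)) ∧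
        r ∉ segment ℝ (p e.1) (p e.2)))).card + 13 * n ≤ 5 * n ^ 2 + 19) :
    ∃ B : Finset (ℝ × ℝ), B ⊆ (Finset.range n).image p ∪ R ∧ B.card = 10 ∧
      ∃ q : MvPolynomial (Fin 2) ℝ, q ≠ 0 ∧ q.totalDegree ≤ 3 ∧
        ∀ x ∈ B, MvPolynomial.eval ![x.1, x.2] q = 0 :=
  MP9b2b.PG.outside n p hn hp R hR hU

end Pool.Agent.Results.MP_9b2b7a_co.OutsidePiercing
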