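import Pool.Agent.Lib.MP_9b2b7a_co.PG.Main
import Pool.Agent.Lib.MP_9b2b7a_co.PG.GenEFin

set_option autoImplicit false
open scoped Classical

namespace Pool.Agent.Results.MP_9b2b7a_co.PiercedPolygon

/-- the line through `r` and the vertex `p i` contains a second vertex of the polygon
`p 0, ..., p (n - 1)` -/
def Joined (n : ℕ) (p : ℕ → ℝ × ℝ) (r : ℝ × ℝ) (i : ℕ) : Prop :=
  ∃ j < n, j ≠ i ∧ Collinear ℝ ({p i, p j, r} : Set (ℝ × ℝ))

/-- Let `p 0, ..., p (n - 1)` be the vertices of a convex `n`-gon `P` in counterclockwise order, `R`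
any finite set of other points, `S` the number of switches: pairs `(i, r)`, `i < n - 1`, `r ∈ R`,
for which exactly one of the vertices `p i`, `p (i + 1)` is joined by `r` to a further vertex, and `E`
the set of pairs `i < j` for which the line `p i p j` contains exactly one point of `R`.

(1) Q1 for every `c > 0` and the sets `P ∪ R` with `|R| + S ≤ c² n² / 40`.

(2) For all `K, e > 0` there are `C, N`: if `n ≥ N`, `S ≤ K n` and at most `K n` pairs of `E` have a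
neighbour (one index changed by one) outside `E`, then at most `C` cubic curves contain all but
`e n²` of the chords of `E` (`p i`, `p j` and the point of `R` on the line `p i p j`), and if
`|E| ≥ 2 e n²`, then some cubic curve contains at least `n / C` vertices and at least `n / C` points
of `R`.

(3) For all `K, e > 0` there are `C, N`: if `n ≥ N`, `|R| ≤ n + K` and at most `K n` of the lines
`p i p j` contain no point of `R`, then the same holds for all pairs `i < j` in the place of `E`. -/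
theorem result :
    (∀ (n : ℕ) (p : ℕ → ℝ × ℝ), 0 < n →
      (∀ i j k : ℕ, i < j → j < k → k < n →
        0 < ((p j).1 - (p i).1) * ((p k).2 - (p i).2) - ((p j).2 - (p i).2) * ((p k).1 - (p i).1)) →
      ∀ R : Finset (ℝ × ℝ), (∀ r ∈ R, ∀ i < n, r ≠ p i) → ∀ c : ℝ, 0 < c → c ≤ 1 →
        c * (n : ℝ) ^ 2 ≤ (((Finset.range n ×ˢ Finset.range n ×ˢ R).filter (fun t =>
          t.1 < t.2.1 ∧ Collinear ℝ ({p t.1, p t.2.1, t.2.2} : Set (ℝ × ℝ)))).card : ℝ) →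
        (R.card : ℝ) + (((Finset.range (n - 1) ×ˢ R).filter (fun t =>
          ¬ (Joined n p t.2 t.1 ↔ Joined n p t.2 (t.1 + 1)))).card : ℝ) ≤ c ^ 2 * (n : ℝ) ^ 2 / 40 →
        ∃ B : Finset (ℝ × ℝ), B ⊆ (Finset.range n).image p ∪ R ∧ B.card = 10 ∧
          ∃ q : MvPolynomial (Fin 2) ℝ, q ≠ 0 ∧ q.totalDegree ≤ 3 ∧
            ∀ x ∈ B, MvPolynomial.eval ![x.1, x.2] q = 0) ∧
    (∀ K e : ℝ, 0 < K → 0 < e → ∃ C N : ℕ, ∀ (n : ℕ) (p : ℕ → ℝ × ℝ) (R : Finset (ℝ × ℝ)), N ≤ n →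
      (∀ i j k : ℕ, i < j → j < k → k < n →
        0 < ((p j).1 - (p i).1) * ((p k).2 - (p i).2) - ((p j).2 - (p i).2) * ((p k).1 - (p i).1)) →
      (∀ r ∈ R, ∀ i < n, r ≠ p i) →
      (((Finset.range (n - 1) ×ˢ R).filter (fun t =>
          ¬ (Joined n p t.2 t.1 ↔ Joined n p t.2 (t.1 + 1)))).card : ℝ) ≤ K * n →
      (((Finset.range n ×ˢ Finset.range n).filter (fun a => a.1 < a.2 ∧
          (R.filter (fun r => Collinear ℝ ({p a.1, p a.2, r} : Set (ℝ × ℝ)))).card = 1 ∧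
          ∃ b : ℕ × ℕ, b.1 < b.2 ∧ b.2 < n ∧
            ((b.1 = a.1 ∧ (b.2 = a.2 + 1 ∨ a.2 = b.2 + 1)) ∨
              (b.2 = a.2 ∧ (b.1 = a.1 + 1 ∨ a.1 = b.1 + 1))) ∧
            ¬ (R.filter (fun r => Collinear ℝ ({p b.1, p b.2, r} : Set (ℝ × ℝ)))).card = 1)).card : ℝ) ≤
        K * n →
      (∃ D : Finset (Finset (ℝ × ℝ)), D.card ≤ C ∧
        (∀ B ∈ D, B ⊆ (Finset.range n).image p ∪ R ∧
          ∃ q : MvPolynomial (Fin 2) ℝ, q ≠ 0 ∧ q.totalDegree ≤ 3 ∧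
            ∀ x ∈ B, MvPolynomial.eval ![x.1, x.2] q = 0) ∧
        (((Finset.range n ×ˢ Finset.range n).filter (fun a => (a.1 < a.2 ∧
          (R.filter (fun r => Collinear ℝ ({p a.1, p a.2, r} : Set (ℝ × ℝ)))).card = 1) ∧
          ∀ B ∈ D, ¬ (p a.1 ∈ B ∧ p a.2 ∈ B ∧ ∃ r ∈ R, r ∈ B ∧
            Collinear ℝ ({p a.1, p a.2, r} : Set (ℝ × ℝ))))).card : ℝ) ≤ e * (n : ℝ) ^ 2) ∧
      (2 * e * (n : ℝ) ^ 2 ≤ (((Finset.range n ×ˢ Finset.range n).filter (fun a => a.1 < a.2 ∧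
          (R.filter (fun r => Collinear ℝ ({p a.1, p a.2, r} : Set (ℝ × ℝ)))).card = 1)).card : ℝ) →
        ∃ B : Finset (ℝ × ℝ), B ⊆ (Finset.range n).image p ∪ R ∧
        (∃ q : MvPolynomial (Fin 2) ℝ, q ≠ 0 ∧ q.totalDegree ≤ 3 ∧
          ∀ x ∈ B, MvPolynomial.eval ![x.1, x.2] q = 0) ∧
        n ≤ C * ((Finset.range n).filter (fun i => p i ∈ B)).card ∧
        n ≤ C * (R.filter (fun r => r ∈ B)).card)) ∧
    (∀ K e : ℝ, 0 < K → 0 < e → ∃ C N : ℕ, ∀ (n : ℕ) (p : ℕ → ℝ × ℝ) (R : Finset (ℝ × ℝ)), N ≤ n →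
      (∀ i j k : ℕ, i < j → j < k → k < n →
        0 < ((p j).1 - (p i).1) * ((p k).2 - (p i).2) - ((p j).2 - (p i).2) * ((p k).1 - (p i).1)) →
      (∀ r ∈ R, ∀ i < n, r ≠ p i) →
      (R.card : ℝ) ≤ n + K →
      (((Finset.range n ×ˢ Finset.range n).filter (fun a => a.1 < a.2 ∧
          ∀ r ∈ R, ¬ Collinear ℝ ({p a.1, p a.2, r} : Set (ℝ × ℝ)))).card : ℝ) ≤ K * n →
      (∃ D : Finset (Finset (ℝ × ℝ)), D.card ≤ C ∧
        (∀ B ∈ D, B ⊆ (Finset.range n).image p ∪ R ∧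
          ∃ q : MvPolynomial (Fin 2) ℝ, q ≠ 0 ∧ q.totalDegree ≤ 3 ∧
            ∀ x ∈ B, MvPolynomial.eval ![x.1, x.2] q = 0) ∧
        (((Finset.range n ×ˢ Finset.range n).filter (fun a => a.1 < a.2 ∧
          ∀ B ∈ D, ¬ (p a.1 ∈ B ∧ p a.2 ∈ B ∧ ∃ r ∈ R, r ∈ B ∧
            Collinear ℝ ({p a.1, p a.2, r} : Set (ℝ × ℝ))))).card : ℝ) ≤ e * (n : ℝ) ^ 2) ∧
      (∃ B : Finset (ℝ × ℝ), B ⊆ (Finset.range n).image p ∪ R ∧
        (∃ q : MvPolynomial (Fin 2) ℝ, q ≠ 0 ∧ q.totalDegree ≤ 3 ∧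
          ∀ x ∈ B, MvPolynomial.eval ![x.1, x.2] q = 0) ∧
        n ≤ C * ((Finset.range n).filter (fun i => p i ∈ B)).card ∧
        n ≤ C * (R.filter (fun r => r ∈ B)).card)) := by
  refine ⟨fun n p hn hp R hR c hc0 hc1 hT hS =>
    MP9b2b.PG.polygon n p hn hp R hR c hc0 hc1 hT hS, ?_, ?_⟩
  · intro K e hK he
    obtain ⟨C, N, h⟩ := MP9b2b.PG.e_final K e hK.le he
    refine ⟨C, N, fun n p R hn hp hR hS hE => ?_⟩
    obtain ⟨⟨D, h1, h2, h3⟩, h4⟩ := h n p R hn hp hR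
      (le_trans (le_of_eq (by unfold MP9b2b.PG.SwS; rfl)) hS)
      (le_trans (le_of_eq (by
        congr 2
        ext a
        unfold MP9b2b.PG.BE
        rw [Finset.mem_filter, Finset.mem_filter]
        rfl)) hE)
    refine ⟨⟨D, h1, h2, le_trans (le_of_eq ?_) h3⟩, fun hb => ?_⟩
    · congr 2
      ext a
      unfold MP9b2b.PG.Un
      rw [Finset.mem_filter, Finset.mem_filter]
      rfl
    · obtain ⟨B, g1, g2, g3, g4⟩ := h4 (hb.trans (le_of_eq (by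
        congr 2
        ext a
        rw [Finset.mem_filter, Finset.mem_filter]
        rfl)))
      exact ⟨B, g1, g2, by convert g3, by convert g4⟩
  · intro K e hK he
    obtain ⟨C, N, h⟩ := MP9b2b.PG.gen_final K e hK.le he
    refine ⟨C, N, fun n p R hn hp hR hRc hUc => ?_⟩
    obtain ⟨⟨D, h1, h2, h3⟩, B, h4, h5, h6, h7⟩ := h n p R hn hp hR hRc (by
      refine le_trans (le_of_eq ?_) hUc
      congr 2)
    refine ⟨⟨D, h1, h2, le_trans (le_of_eq ?_) h3⟩, B, h4, h5, ?_, ?_⟩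
    · congr 2
      ext a
      rw [Finset.mem_filter, Finset.mem_filter]
      rfl
    · convert h6
    · convert h7

end Pool.Agent.Results.MP_9b2b7a_co.PiercedPolygon
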